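import Mathlib

set_option autoImplicit false
open Set Metric Filter Topology MeasureTheory Polynomial
open scoped Pointwise RealInnerProductSpace

namespace Pool.Agent.H.MP_ad59b4_gt

abbrev E := EuclideanSpace ℝ (Fin 4)

lemma proj_ex {P : Set E} (hc : IsCompact P) (hv : Convex ℝ P) (hn : P.Nonempty) :
    ∃ p : E → E, (∀ x, p x ∈ P) ∧ ∀ x, ∀ w ∈ P, ⟪x - p x, w - p x⟫ ≤ 0 := by
  have : ∀ x, ∃ y ∈ P, ∀ w ∈ P, ⟪x - y, w - y⟫ ≤ 0 := fun x =>
    let ⟨y, hy, e⟩ := exists_norm_eq_iInf_of_complete_convex hn hc.isComplete hv x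
    ⟨y, hy, (norm_eq_iInf_iff_real_inner_le_zero hv hy).1 e⟩
  choose p h1 h2 using this
  exact ⟨p, h1, h2⟩

lemma null_image {F : E → E} {C : NNReal} (hF : LipschitzWith C F) {N : Set E}
    (hN : volume N = 0) : volume (F '' N) = 0 := by
  have a := Measure.absolutelyContinuous_isAddHaarMeasure
    (Measure.hausdorffMeasure (Module.finrank ℝ E) : Measure E) volume hN
  refine Measure.absolutelyContinuous_isAddHaarMeasure volume
    (Measure.hausdorffMeasure (Module.finrank ℝ E) : Measure E) ?_
  have := hF.hausdorffMeasure_image_le (d := Module.finrank ℝ E) (by positivity) N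
  rw [a, mul_zero] at this
  exact nonpos_iff_eq_zero.1 this

lemma det_pos {D : E →L[ℝ] E} (h : ∀ v, 0 ≤ ⟪v, D v⟫) {s : ℝ} (h0 : 0 < s) (h1 : s ≤ 1) :
    0 < (s • (1 - D) + D).det := by
  have hc : Continuous fun s : ℝ => (s • (1 - D) + D).det :=
    ContinuousLinearMap.continuous_det.comp (by fun_prop)
  by_contra k
  obtain ⟨r, hr, e⟩ := intermediate_value_Icc h1 hc.continuousOn (a := s)
    (show (0 : ℝ) ∈ Icc _ _ from ⟨not_lt.1 k, by
      simp only [one_smul, sub_add_cancel]
      rw [show (1 : E →L[ℝ] E).det = 1 from LinearMap.det_id]; norm_num⟩)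
  obtain ⟨v, hv, v0⟩ := (Submodule.ne_bot_iff _).1 (LinearMap.det_eq_zero_iff_ker_ne_bot.1 e)
  have hv : r • (v - D v) + D v = 0 := hv
  have := congrArg (fun w => ⟪v, w⟫) hv
  simp only [inner_add_right, real_inner_smul_right, inner_sub_right, inner_zero_right,
    real_inner_self_eq_norm_sq] at this
  have a := h v
  have b : 0 < ‖v‖ ^ 2 := by positivity
  nlinarith [hr.1, hr.2, mul_nonneg (sub_nonneg.2 hr.2) a, mul_pos (h0.trans_le hr.1) b]

lemma det_poly (A B : E →L[ℝ] E) :
    ∃ q : ℝ[X], q.natDegree ≤ 4 ∧ ∀ s : ℝ, q.eval s = (s • A + B).det := by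
  let b := (EuclideanSpace.basisFun (Fin 4) ℝ).toBasis
  refine ⟨_, (natDegree_det_X_add_C_le (LinearMap.toMatrix b b A)
    (LinearMap.toMatrix b b B)).trans (by simp), fun s => ?_⟩
  rw [← coe_evalRingHom, RingHom.map_det, ContinuousLinearMap.det, ← LinearMap.det_toMatrix b]
  congr 1
  ext i j
  simp only [RingHom.mapMatrix_apply, Matrix.map_apply, Matrix.add_apply, Matrix.smul_apply,
    smul_eq_mul, coe_evalRingHom, eval_mul, eval_X, eval_C,
    ContinuousLinearMap.toLinearMap_add, ContinuousLinearMap.toLinearMap_smul, map_add, map_smul]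

noncomputable def nd (j : Fin 5) : ℝ := (j + 1) / 5

lemma nd_inj : InjOn nd (Finset.univ : Finset (Fin 5)) := fun i _ j _ h => by
  simp only [nd] at h
  have : (i : ℝ) = j := by linarith
  exact Fin.ext (by exact_mod_cast this)

lemma nd_mem (j : Fin 5) : 0 < nd j ∧ nd j ≤ 1 := by
  have : (j : ℝ) ≤ 4 := by exact_mod_cast Nat.lt_succ_iff.1 j.2
  refine ⟨by unfold nd; positivity, by unfold nd; linarith⟩

lemma det_lag (A B : E →L[ℝ] E) (s : ℝ) : (s • A + B).det =
    ∑ j, (Lagrange.basis Finset.univ nd j).eval s * (nd j • A + B).det := by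
  obtain ⟨q, h, e⟩ := det_poly A B
  have := Lagrange.eq_interpolate (f := q) nd_inj
    (degree_le_natDegree.trans_lt (by simpa using Nat.lt_succ_of_le h))
  rw [← e, this, Lagrange.interpolate_apply, eval_finsetSum]
  simp [e, mul_comm]

lemma shell {P : Set E} (hc : IsCompact P) (hv : Convex ℝ P) (hn : P.Nonempty) {R : ℝ}
    (hR : 0 < R) : ∃ q : ℝ[X], q.natDegree ≤ 4 ∧
      ∀ t ∈ Ioc 0 R, volume.real (P + closedBall (0 : E) t) = q.eval t := by
  obtain ⟨p, p1, p2⟩ := proj_ex hc hv hn
  have fm : ∀ x y, ‖p x - p y‖ ^ 2 ≤ ⟪x - y, p x - p y⟫ := by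
    intro x y
    have a := p2 x _ (p1 y)
    have b := p2 y _ (p1 x)
    rw [← real_inner_self_eq_norm_sq]
    simp only [inner_sub_left, inner_sub_right] at a b ⊢
    linarith
  have lip : LipschitzWith 1 p := LipschitzWith.of_dist_le_mul fun x y => by
    simp only [dist_eq_norm, NNReal.coe_one, one_mul]
    have := (fm x y).trans (real_inner_le_norm _ _)
    by_contra k
    nlinarith [norm_nonneg (x - y)]
  have ray : ∀ x (s : ℝ), 0 ≤ s → p (s • (x - p x) + p x) = p x := by
    intro x s hs
    have a := p2 (s • (x - p x) + p x) _ (p1 x)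
    have b := mul_nonneg hs (neg_nonneg.2 (p2 x _ (p1 (s • (x - p x) + p x))))
    generalize p (s • (x - p x) + p x) = y at a b
    rw [add_sub_assoc, inner_add_left, real_inner_smul_left, real_inner_self_eq_norm_sq] at a
    rw [← neg_sub (p x) y, inner_neg_right, neg_neg] at b
    have : ‖p x - y‖ ^ 2 = 0 := le_antisymm (by linarith) (by positivity)
    exact (sub_eq_zero.1 (norm_eq_zero.1 (pow_eq_zero_iff two_ne_zero |>.1 this))).symm
  have mem : ∀ x (t : ℝ), x ∈ P + closedBall (0 : E) t ↔ ‖x - p x‖ ≤ t := by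
    intro x t
    refine ⟨?_, fun h => ⟨p x, p1 x, x - p x, by simpa using h, by simp⟩⟩
    rintro ⟨y, hy, z, hz, rfl⟩
    have a := p2 (y + z) y hy
    have hz : ‖z‖ ≤ t := by simpa using hz
    show ‖y + z - p (y + z)‖ ≤ t
    generalize p (y + z) = w at a
    rw [show y - w = (y + z - w) - z by abel, inner_sub_right, real_inner_self_eq_norm_sq] at a
    have := real_inner_le_norm (y + z - w) z
    by_contra k
    nlinarith [norm_nonneg z]
  let D := fun x => fderiv ℝ p x
  let T := (P + closedBall (0 : E) R) ∩ {x | DifferentiableAt ℝ p x}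
  have cR := hc.add (isCompact_closedBall (0 : E) R)
  have mT : MeasurableSet T := cR.measurableSet.inter (measurableSet_of_differentiableAt ℝ p)
  have mono : ∀ x ∈ T, ∀ v, 0 ≤ ⟪v, D x v⟫ := by
    intro x hx v
    have h1 : HasDerivAt (fun s : ℝ => x + s • v) v 0 := by
      simpa using ((hasDerivAt_id (0 : ℝ)).smul_const v).const_add x
    have h2 := (HasFDerivAt.comp_hasDerivAt (x := (0 : ℝ)) (l := p) (l' := D x)
      (by simpa using hx.2.hasFDerivAt) h1)
    have h3 := (hasDerivAt_const (0 : ℝ) v).inner ℝ h2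
    simp only [inner_zero_left, add_zero] at h3
    refine h3.nonneg_of_monotone fun a b hab => ?_
    rcases hab.eq_or_lt with rfl | hab
    · rfl
    have := (sq_nonneg _).trans (fm (x + b • v) (x + a • v))
    rw [add_sub_add_left_eq_sub, ← sub_smul, real_inner_smul_left, inner_sub_right] at this
    have := nonneg_of_mul_nonneg_right this (sub_pos.2 hab)
    simpa using this
  have key : ∀ s : ℝ, 0 < s → s ≤ 1 → IntegrableOn (fun x => (s • (1 - D x) + D x).det) T ∧
      volume.real (P + closedBall (0 : E) (s * R)) = ∫ x in T, (s • (1 - D x) + D x).det := by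
    intro s s0 s1
    let F := fun x => s • (x - p x) + p x
    have inj : Function.Injective F := fun x y h => by
      have e : p x = p y := by rw [← ray x s s0.le, ← ray y s s0.le]; exact congrArg p h
      simp only [F, e, add_left_inj] at h
      exact sub_left_injective (smul_right_injective E s0.ne' h)
    have im : F '' (P + closedBall (0 : E) R) = P + closedBall (0 : E) (s * R) := by
      ext z
      constructor
      · rintro ⟨x, hx, rfl⟩
        rw [mem] at hx ⊢
        simp only [F]
        rw [ray x s s0.le, add_sub_cancel_right, norm_smul, Real.norm_of_nonneg s0.le]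
        gcongr
      · intro hz
        refine ⟨s⁻¹ • (z - p z) + p z, ?_, ?_⟩
        · rw [mem] at hz ⊢
          rw [ray z _ (inv_pos.2 s0).le, add_sub_cancel_right, norm_smul, norm_inv,
            Real.norm_of_nonneg s0.le, inv_mul_le_iff₀ s0]
          exact hz
        · simp only [F]
          rw [ray z _ (inv_pos.2 s0).le, add_sub_cancel_right, smul_inv_smul₀ s0.ne']
          simp
    obtain ⟨C, hC⟩ : ∃ C, LipschitzWith C F :=
      ⟨_, ((lipschitzWith_smul s).comp (LipschitzWith.id.sub lip)).add lip⟩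
    have n0 := null_image hC (ae_iff.1 (lip.ae_differentiableAt (μ := volume)))
    have e1 : volume (F '' T) = volume (P + closedBall (0 : E) (s * R)) := by
      rw [← im]
      refine le_antisymm (measure_mono (image_mono inter_subset_left)) ?_
      rw [← add_zero (volume (F '' T)), ← n0]
      refine le_trans (measure_mono ?_) (measure_union_le _ _)
      rintro _ ⟨x, hx, rfl⟩
      by_cases k : DifferentiableAt ℝ p x
      · exact .inl ⟨x, ⟨hx, k⟩, rfl⟩
      · exact .inr ⟨x, k, rfl⟩
    have e2 := lintegral_abs_det_fderiv_eq_addHaar_image volume mT (f := F)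
      (f' := fun x => s • (1 - D x) + D x) (fun x hx => (HasFDerivAt.add
        (((hasFDerivAt_id x).sub hx.2.hasFDerivAt).const_smul s)
          hx.2.hasFDerivAt).hasFDerivWithinAt) inj.injOn
    have ms : Measurable fun x => (s • (1 - D x) + D x).det :=
      (ContinuousLinearMap.continuous_det.comp (by fun_prop : Continuous fun A : E →L[ℝ] E =>
        s • (1 - A) + A)).measurable.comp (measurable_fderiv ℝ p)
    have ps : 0 ≤ᵐ[volume.restrict T] fun x => (s • (1 - D x) + D x).det :=
      (ae_restrict_iff' mT).2 (.of_forall fun x hx => (det_pos (mono x hx) s0 s1).le)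
    have e3 : ∫⁻ x in T, ENNReal.ofReal (s • (1 - D x) + D x).det =
        volume (P + closedBall (0 : E) (s * R)) := by
      rw [← e1, ← e2]
      exact lintegral_congr_ae (ps.mono fun x hx => congrArg ENNReal.ofReal (abs_of_nonneg hx).symm)
    refine ⟨⟨ms.aestronglyMeasurable, (hasFiniteIntegral_iff_ofReal ps).2 ?_⟩, ?_⟩
    · rw [e3]; exact (hc.add (isCompact_closedBall _ _)).measure_lt_top
    · rw [integral_eq_lintegral_of_nonneg_ae ps ms.aestronglyMeasurable, e3]; rfl
  refine ⟨∑ j, (Lagrange.basis Finset.univ nd j).comp (C R⁻¹ * X) *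
    C (volume.real (P + closedBall (0 : E) (nd j * R))), ?_, fun t ht => ?_⟩
  · refine natDegree_sum_le_of_forall_le _ _ fun j _ => (natDegree_mul_C_le _ _).trans ?_
    refine natDegree_comp_le.trans ?_
    rw [Lagrange.natDegree_basis nd_inj (Finset.mem_univ j)]
    have := (natDegree_C_mul_le R⁻¹ X).trans natDegree_X_le
    simp only [Finset.card_univ, Fintype.card_fin]
    omega
  · have s0 : 0 < R⁻¹ * t := mul_pos (inv_pos.2 hR) ht.1
    have s1 : R⁻¹ * t ≤ 1 := by rw [inv_mul_le_iff₀ hR]; simpa using ht.2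
    have := (key _ s0 s1).2
    rw [mul_comm, mul_inv_cancel_left₀ hR.ne'] at this
    rw [this, eval_finsetSum]
    simp only [det_lag _ _ (R⁻¹ * t), eval_mul, eval_comp, eval_C, eval_X]
    rw [integral_finsetSum _ fun j _ => (key _ (nd_mem j).1 (nd_mem j).2).1.const_mul _]
    refine Finset.sum_congr rfl fun j _ => ?_
    rw [integral_const_mul, (key _ (nd_mem j).1 (nd_mem j).2).2]

lemma steiner {P : Set E} (hc : IsCompact P) (hv : Convex ℝ P) (hn : P.Nonempty) :
    ∃ c : ℕ → ℝ, ∀ t, 0 ≤ t →
      volume.real (P + closedBall (0 : E) t) = ∑ m ∈ Finset.range 5, c m * t ^ m := by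
  obtain ⟨q, hq, e⟩ := shell hc hv hn one_pos
  have pos : ∀ t, 0 < t → volume.real (P + closedBall (0 : E) t) = q.eval t := by
    intro t ht
    obtain ⟨r, -, f⟩ := shell hc hv hn ht
    rw [f t ⟨ht, le_rfl⟩, eq_of_infinite_eval_eq r q ((Ioc_infinite (lt_min ht one_pos)).mono
      fun x hx => (f x ⟨hx.1, hx.2.trans (min_le_left _ _)⟩).symm.trans
        (e x ⟨hx.1, hx.2.trans (min_le_right _ _)⟩))]
  refine ⟨q.coeff, fun t ht => ?_⟩
  rw [← eval_eq_sum_range' (Nat.lt_succ_of_le hq)]
  rcases ht.eq_or_lt with rfl | ht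
  · have a := (ENNReal.tendsto_toReal hc.measure_lt_top.ne).comp
      (tendsto_measure_cthickening_of_isCompact (μ := volume) hc)
    rw [closedBall_zero, add_singleton]
    simp only [add_zero, image_id']
    refine tendsto_nhds_unique_of_eventuallyEq (l := 𝓝[>] 0) (a.mono_left nhdsWithin_le_nhds)
      ((q.continuous.tendsto 0).mono_left nhdsWithin_le_nhds) ?_
    filter_upwards [self_mem_nhdsWithin] with t ht
    rw [← pos t ht, hc.add_closedBall_zero (le_of_lt ht)]
    rfl
  · exact pos t ht

end Pool.Agent.H.MP_ad59b4_gt
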