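import Pool.Agent.H.MP_ad59b4_gt.A

set_option autoImplicit false
open Set Metric Filter Topology MeasureTheory
open scoped Pointwise RealInnerProductSpace

namespace Pool.Agent.H.MP_ad59b4_gt

abbrev Sp := sphere (0 : E) 1

def St (f : Sp → ℝ) : Set E := {x | ∃ (u : Sp) (r : ℝ), 0 < r ∧ r < f u ∧ x = r • (u : E)}

lemma star {f : Sp → ℝ} (hf : Continuous f) (h0 : ∀ u, 0 < f u) :
    volume (St f) = ENNReal.ofReal (∫ u, f u ^ 4 / 4 ∂(volume : Measure E).toSphere) := by
  have W : MeasurableSet {z : Sp × Ioi (0 : ℝ) | z.2.1 < f z.1} :=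
    (isOpen_lt (by fun_prop) (by fun_prop)).measurableSet
  have h := (volume : Measure E).measurePreserving_homeomorphUnitSphereProd.measure_preimage
    W.nullMeasurableSet
  rw [comap_subtype_coe_apply (measurableSet_singleton _).compl, Measure.prod_apply W] at h
  have e : St f = Subtype.val '' (homeomorphUnitSphereProd E ⁻¹'
      {z : Sp × Ioi (0 : ℝ) | z.2.1 < f z.1}) := by
    ext x
    constructor
    · rintro ⟨u, r, r0, hr, rfl⟩
      exact ⟨(homeomorphUnitSphereProd E).symm (u, ⟨r, r0⟩), by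
        rw [mem_preimage, Homeomorph.apply_symm_apply]; exact hr, by simp⟩
    · rintro ⟨y, hy, rfl⟩
      refine ⟨_, _, (homeomorphUnitSphereProd E y).2.2, hy, ?_⟩
      rw [← homeomorphUnitSphereProd_symm_apply_coe, Homeomorph.symm_apply_apply]
  rw [e, h, ofReal_integral_eq_lintegral_ofReal
    ((by fun_prop : Continuous fun u => f u ^ 4 / 4).integrable_of_hasCompactSupport
      (HasCompactSupport.of_compactSpace _)) (.of_forall fun u => by positivity)]
  refine lintegral_congr fun u => ?_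
  have := Measure.volumeIoiPow_apply_Iio (Module.finrank ℝ E - 1) ⟨f u, h0 u⟩
  convert this using 2
  · rfl
  · simp; norm_num

noncomputable def hs (P : Set E) (u : E) : ℝ := sSup ((fun x => ⟪u, x⟫) '' P)

lemma hs_cont {P : Set E} (hc : IsCompact P) : Continuous (hs P) :=
  hc.continuous_sSup (f := fun u x : E => ⟪u, x⟫) (by fun_prop)

lemma hs_ex {P : Set E} (hc : IsCompact P) (hn : P.Nonempty) (u : E) :
    ∃ y ∈ P, hs P u = ⟪u, y⟫ ∧ ∀ x ∈ P, ⟪u, x⟫ ≤ ⟪u, y⟫ :=
  hc.exists_sSup_image_eq_and_ge hn (by fun_prop)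

lemma pw {a η t N : ℝ} (ha : |a| ≤ N) (hη : |η| * t ≤ N) (ht : 1 ≤ t) :
    |(t + a + η) ^ 4 / 4 - (t ^ 4 / 4 + t ^ 3 * a)| ≤
      (N + 6 * N ^ 2 + 8 * N ^ 3 + 4 * N ^ 4) * t ^ 2 := by
  have N0 : 0 ≤ N := (abs_nonneg _).trans ha
  have d : |a + η| ≤ 2 * N := by
    have := abs_add_le a η
    nlinarith [abs_nonneg η]
  rw [show (t + a + η) ^ 4 / 4 - (t ^ 4 / 4 + t ^ 3 * a) = t ^ 2 * (η * t) +
    3 / 2 * t ^ 2 * (a + η) ^ 2 + t * (a + η) ^ 3 + (a + η) ^ 4 / 4 by ring]
  have t0 : 0 < t := by linarith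
  have t2 : t ≤ t ^ 2 := by nlinarith
  calc _ ≤ |t ^ 2 * (η * t)| + |3 / 2 * t ^ 2 * (a + η) ^ 2| + |t * (a + η) ^ 3| +
        |(a + η) ^ 4 / 4| := by
        grw [abs_add_le, abs_add_le, abs_add_le]
    _ = t ^ 2 * (|η| * t) + 3 / 2 * t ^ 2 * |a + η| ^ 2 + t * |a + η| ^ 3 +
        1 * |a + η| ^ 4 / 4 := by
        simp only [abs_mul, abs_pow, abs_div, abs_of_pos t0, one_mul]
        norm_num
    _ ≤ t ^ 2 * N + 3 / 2 * t ^ 2 * (2 * N) ^ 2 + t ^ 2 * (2 * N) ^ 3 +
        t ^ 2 * (2 * N) ^ 4 / 4 := by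
        gcongr
        linarith
    _ = _ := by ring

lemma lin0 {a b C : ℝ} (h : ∀ᶠ t : ℝ in atTop, |a * t ^ 4 + b * t ^ 3| ≤ C * t ^ 2) : b = 0 := by
  have f : Tendsto (fun t : ℝ => a * t + b) atTop (𝓝 0) := by
    refine squeeze_zero_norm' (a := fun t => C / t) ?_ (tendsto_const_nhds.div_atTop tendsto_id)
    filter_upwards [h, eventually_gt_atTop 0] with t ht t0
    rw [show a * t ^ 4 + b * t ^ 3 = (a * t + b) * t ^ 3 by ring, abs_mul,
      abs_of_pos (pow_pos t0 3)] at ht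
    rw [Real.norm_eq_abs, le_div_iff₀ t0]
    exact le_of_mul_le_mul_right (a := t ^ 2) (by linarith) (by positivity)
  have g := (f.const_mul 2).sub (f.comp (tendsto_id.const_mul_atTop two_pos))
  refine tendsto_nhds_unique tendsto_const_nhds (g.congr (fun t => ?_) |>.trans (by simp))
  simp; ring

lemma c3 {P : Set E} (hc : IsCompact P) (hn : P.Nonempty) {c : ℕ → ℝ}
    (h : ∀ t, 0 ≤ t →
      volume.real (P + closedBall (0 : E) t) = ∑ m ∈ Finset.range 5, c m * t ^ m) :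
    c 3 = ∫ u : Sp, hs P u ∂(volume : Measure E).toSphere := by
  obtain ⟨M, M1, hM⟩ : ∃ M, 1 ≤ M ∧ ∀ x ∈ P, ‖x‖ ≤ M := by
    obtain ⟨M, h⟩ := hc.isBounded.exists_norm_le
    exact ⟨max M 1, le_max_right _ _, fun x hx => (h x hx).trans (le_max_left _ _)⟩
  have hb : ∀ u : Sp, |hs P u| ≤ M := fun u => by
    obtain ⟨y, hy, e, -⟩ := hs_ex hc hn u
    rw [e]
    refine (abs_real_inner_le_norm _ _).trans ?_
    simpa using hM y hy
  have ch : Continuous fun u : Sp => hs P u := (hs_cont hc).comp continuous_subtype_val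
  set σ := (volume : Measure E).toSphere
  set K := M ^ 2 + 6 * (M ^ 2) ^ 2 + 8 * (M ^ 2) ^ 3 + 4 * (M ^ 2) ^ 4
  have it : ∀ {g : Sp → ℝ}, Continuous g → Integrable g σ := fun hg =>
    hg.integrable_of_hasCompactSupport (HasCompactSupport.of_compactSpace _)
  have est : ∀ t η : ℝ, 1 ≤ t → |η| * t ≤ M ^ 2 → |∫ u : Sp, (t + hs P u + η) ^ 4 / 4 ∂σ -
      (σ.real univ * (t ^ 4 / 4) + t ^ 3 * ∫ u : Sp, hs P u ∂σ)| ≤ K * t ^ 2 * σ.real univ := by
    intro t η ht hη
    rw [← smul_eq_mul, ← integral_const, ← integral_const_mul,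
      ← integral_add (it (by fun_prop)) (it (by fun_prop)),
      ← integral_sub (it (by fun_prop)) (it (by fun_prop)), ← Real.norm_eq_abs]
    exact norm_integral_le_of_norm_le_const (.of_forall fun u =>
      pw ((hb u).trans (by nlinarith)) hη ht)
  refine sub_eq_zero.1 (lin0 (a := c 4 - σ.real univ / 4)
    (C := K * σ.real univ + |c 0| + |c 1| + |c 2|) ?_)
  filter_upwards [eventually_ge_atTop (2 * M + 1)] with t ht
  have t1 : 1 ≤ t := by linarith
  have t0 : 0 < t := by linarith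
  have q1 : M ^ 2 / t ≤ M := by rw [div_le_iff₀ t0]; nlinarith
  have q0 : 0 < M ^ 2 / t := by positivity
  have fin := (hc.add (isCompact_closedBall (0 : E) t)).measure_lt_top (μ := volume)
  have e1 := abs_le.1 (est t (-(M ^ 2 / t)) t1 (by
    rw [abs_neg, abs_of_pos q0, div_mul_cancel₀ _ t0.ne']))
  have e2 := abs_le.1 (est t (M ^ 2 / t) t1 (by rw [abs_of_pos q0, div_mul_cancel₀ _ t0.ne']))
  have lo : ∫ u : Sp, (t + hs P u + -(M ^ 2 / t)) ^ 4 / 4 ∂σ ≤
      volume.real (P + closedBall (0 : E) t) := by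
    rw [measureReal_def, ← ENNReal.ofReal_le_iff_le_toReal fin.ne,
      ← star (by fun_prop) fun u => by linarith [(abs_le.1 (hb u)).1]]
    refine measure_mono ?_
    rintro _ ⟨u, r, r0, hr, rfl⟩
    obtain ⟨y, hy, e, -⟩ := hs_ex hc hn u
    refine ⟨y, hy, r • (u : E) - y, ?_, by simp⟩
    rw [mem_closedBall_zero_iff]
    refine le_of_sq_le_sq ?_ t0.le
    rw [norm_sub_sq_real, real_inner_smul_left, ← e, norm_smul, norm_eq_of_mem_sphere u, mul_one,
      Real.norm_eq_abs, sq_abs]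
    have a1 : ‖y‖ ^ 2 ≤ M ^ 2 := by gcongr; exact hM y hy
    have a2 : (r - hs P u) ^ 2 ≤ (t - M ^ 2 / t) ^ 2 :=
      sq_le_sq' (by linarith [(abs_le.1 (hb u)).2]) (by linarith)
    have a3 : (M ^ 2 / t) ^ 2 ≤ M ^ 2 := by gcongr
    have a4 : t * (M ^ 2 / t) = M ^ 2 := by field_simp
    nlinarith [sq_nonneg (hs P u)]
  have up : volume.real (P + closedBall (0 : E) t) ≤
      ∫ u : Sp, (t + hs P u + M ^ 2 / t) ^ 4 / 4 ∂σ := by
    refine ENNReal.toReal_le_of_le_ofReal (integral_nonneg fun u => by positivity) ?_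
    rw [← star (by fun_prop) fun u => by linarith [(abs_le.1 (hb u)).1],
      ← measure_sdiff_null (measure_singleton (0 : E))]
    refine measure_mono ?_
    rintro _ ⟨⟨y, hy, z, hz, rfl⟩, x0⟩
    have n0 : 0 < ‖y + z‖ := norm_pos_iff.2 x0
    let u : Sp := ⟨‖y + z‖⁻¹ • (y + z), by
      rw [mem_sphere_zero_iff_norm, norm_smul, norm_inv, norm_norm, inv_mul_cancel₀ n0.ne']⟩
    refine ⟨u, ‖y + z‖, n0, ?_, (smul_inv_smul₀ n0.ne' _).symm⟩
    obtain ⟨w, -, e, hw⟩ := hs_ex hc hn u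
    have a1 : ⟪(u : E), y + z⟫ = ‖y + z‖ := by
      simp only [u, real_inner_smul_left, real_inner_self_eq_norm_sq]; field_simp
    have a2 := real_inner_le_norm (u : E) z
    rw [norm_eq_of_mem_sphere u, one_mul] at a2
    rw [inner_add_right] at a1
    linarith [hw y hy, mem_closedBall_zero_iff.1 hz]
  rw [h t t0.le] at lo up
  simp only [Finset.sum_range_succ, Finset.sum_range_zero, pow_zero, pow_one] at lo up
  have t2 : t ≤ t ^ 2 := by nlinarith
  have b0 : |c 0| * 1 ≤ |c 0| * t ^ 2 := by gcongr; linarith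
  have b1 : |c 1| * t ≤ |c 1| * t ^ 2 := by gcongr
  have b2 := mul_le_mul_of_nonneg_right (le_abs_self (c 1)) t0.le
  have b3 := mul_le_mul_of_nonneg_right (neg_abs_le (c 1)) t0.le
  have b4 := mul_le_mul_of_nonneg_right (le_abs_self (c 2)) (sq_nonneg t)
  have b5 := mul_le_mul_of_nonneg_right (neg_abs_le (c 2)) (sq_nonneg t)
  rw [abs_le]
  constructor <;> linarith [le_abs_self (c 0), neg_abs_le (c 0), e1.1, e2.2]

lemma c3_sub {P : Set E} (hc : IsCompact P) (hn : P.Nonempty) {c d : ℕ → ℝ}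
    (h : ∀ t, 0 ≤ t →
      volume.real (P + closedBall (0 : E) t) = ∑ m ∈ Finset.range 5, c m * t ^ m)
    (k : ∀ t, 0 ≤ t →
      volume.real (P + -P + closedBall (0 : E) t) = ∑ m ∈ Finset.range 5, d m * t ^ m) :
    c 3 = 1 / 2 * d 3 := by
  have a := c3 hc hn h
  have b := c3 hc.neg hn.neg (c := c) fun t ht => by
    rw [← h t ht, measureReal_def, measureReal_def, ← Measure.measure_neg, neg_add, neg_neg, neg_closedBall, neg_zero]
  have e : ∀ u, hs (P + -P) u = hs P u + hs (-P) u := fun u => by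
    obtain ⟨_, ⟨x, hx, y, hy, rfl⟩, e0, f0⟩ := hs_ex (hc.add hc.neg) (hn.add hn.neg) u
    obtain ⟨x', hx', e1, f1⟩ := hs_ex hc hn u
    obtain ⟨y', hy', e2, f2⟩ := hs_ex hc.neg hn.neg u
    have := f0 _ (add_mem_add hx' hy')
    simp only [inner_add_right] at e0 this
    linarith [f1 x hx, f2 y hy]
  have it : ∀ {Q : Set E}, IsCompact Q → Integrable (fun u : Sp => hs Q u)
      (volume : Measure E).toSphere := fun hg =>
    ((hs_cont hg).comp continuous_subtype_val).integrable_of_hasCompactSupport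
      (HasCompactSupport.of_compactSpace _)
  rw [c3 (hc.add hc.neg) (hn.add hn.neg) k]
  simp only [e]
  rw [integral_add (it hc) (it hc.neg), ← a, ← b]
  ring

def Cyl (u : E) (t : ℝ) (X : Set E) : Set E := {z | |⟪u, z⟫| ≤ t ∧ z - ⟪u, z⟫ • u ∈ X}

lemma cyl_scale {u : E} (hu : ‖u‖ = 1) {t : ℝ} (ht : 0 < t) (X : Set E) :
    volume (Cyl u t X) = ENNReal.ofReal t * volume (Cyl u 1 X) := by
  have uu : ⟪u, u⟫ = 1 := by rw [real_inner_self_eq_norm_sq, hu]; norm_num
  have e : Cyl u t X = LinearMap.transvection ((t⁻¹ - 1) • (innerₗ E u)) u ⁻¹' Cyl u 1 X := by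
    ext z
    simp only [Cyl, mem_preimage, mem_ofPred_eq, LinearMap.transvection.apply,
      LinearMap.smul_apply, innerₗ_apply_apply, smul_eq_mul, inner_add_right,
      real_inner_smul_right, uu, mul_one]
    rw [show ⟪u, z⟫ + (t⁻¹ - 1) * ⟪u, z⟫ = t⁻¹ * ⟪u, z⟫ by ring, abs_mul, abs_of_pos (inv_pos.2 ht),
      inv_mul_le_iff₀ ht, mul_one, show z + ((t⁻¹ - 1) * ⟪u, z⟫) • u - (t⁻¹ * ⟪u, z⟫) • u =
        z - ⟪u, z⟫ • u by module]
  have d : LinearMap.det (LinearMap.transvection ((t⁻¹ - 1) • (innerₗ E u)) u) = t⁻¹ := by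
    rw [LinearMap.transvection.det]; simp [hu]
  rw [e, Measure.addHaar_preimage_linearMap _ (by rw [d]; positivity), d, inv_inv, abs_of_pos ht]

lemma c1 {P : Set E} (hc : IsCompact P) {u : E} (hu : ‖u‖ = 1) (hP : ∀ x ∈ P, ⟪u, x⟫ = 0)
    {c : ℕ → ℝ} (h : ∀ t, 0 ≤ t →
      volume.real (P + closedBall (0 : E) t) = ∑ m ∈ Finset.range 5, c m * t ^ m) :
    c 1 = volume.real (Cyl u 1 P) := by
  have cQ : IsCompact (Cyl u 1 P) := by
    refine (hc.add (isCompact_closedBall (0 : E) 1)).of_isClosed_subset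
      (IsClosed.inter (s₁ := {z | |⟪u, z⟫| ≤ 1}) (isClosed_le (by fun_prop) continuous_const)
        (hc.isClosed.preimage (f := fun z => z - ⟪u, z⟫ • u) (by fun_prop))) fun z hz => ?_
    exact ⟨_, hz.2, ⟪u, z⟫ • u, by simpa [norm_smul, hu] using hz.1, by simp⟩
  have lo : ∀ t, 0 < t → t * volume.real (Cyl u 1 P) ≤ volume.real (P + closedBall (0 : E) t) := by
    intro t ht
    have : volume.real (Cyl u t P) ≤ volume.real (P + closedBall (0 : E) t) :=
      measureReal_mono (fun z hz => ⟨_, hz.2, ⟪u, z⟫ • u, by simpa [norm_smul, hu] using hz.1,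
        by simp⟩) (hc.add (isCompact_closedBall _ _)).measure_lt_top.ne
    rwa [measureReal_def, cyl_scale hu ht, ENNReal.toReal_mul, ENNReal.toReal_ofReal ht.le] at this
  have up : ∀ t, 0 < t → volume.real (P + closedBall (0 : E) t) ≤
      t * volume.real (cthickening (2 * t) (Cyl u 1 P)) := by
    intro t ht
    refine ENNReal.toReal_le_of_le_ofReal (by positivity) ?_
    rw [ENNReal.ofReal_mul ht.le, ofReal_measureReal cQ.cthickening.measure_lt_top.ne]
    refine le_trans (measure_mono (t := Cyl u t (P + closedBall (0 : E) (2 * t))) ?_) ?_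
    · rintro _ ⟨y, hy, z, hz, rfl⟩
      have hz := mem_closedBall_zero_iff.1 hz
      have a : |⟪u, z⟫| ≤ t := by simpa [hu] using (abs_real_inner_le_norm u z).trans (by simpa [hu])
      refine ⟨by simpa [inner_add_right, hP y hy] using a, y, hy, z - ⟪u, z⟫ • u, ?_, ?_⟩
      · rw [mem_closedBall_zero_iff]
        refine (norm_sub_le _ _).trans ?_
        rw [norm_smul, hu, Real.norm_eq_abs]; linarith
      · simp [inner_add_right, hP y hy, add_sub_assoc]
    · rw [cyl_scale hu ht]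
      gcongr
      rintro z ⟨z1, y, hy, w, hw, e⟩
      refine mem_cthickening_of_dist_le z (y + ⟪u, z⟫ • u) _ _ ⟨?_, ?_⟩ ?_
      · simpa [inner_add_right, real_inner_smul_right, hP y hy, hu] using z1
      · simpa [inner_add_right, real_inner_smul_right, hP y hy, hu] using hy
      · have e : y + w = z - ⟪u, z⟫ • u := e
        rw [dist_eq_norm, ← sub_sub, sub_right_comm, ← e, add_sub_cancel_left]
        simpa using hw
  have lim : Tendsto (fun t => volume.real (cthickening (2 * t) (Cyl u 1 P))) (𝓝[>] 0)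
      (𝓝 (volume.real (Cyl u 1 P))) :=
    (((ENNReal.tendsto_toReal cQ.measure_lt_top.ne).comp
      (tendsto_measure_cthickening_of_isCompact (μ := volume) cQ)).comp
      (Continuous.tendsto' (by fun_prop : Continuous fun t : ℝ => 2 * t) 0 0 (by simp))).mono_left
      nhdsWithin_le_nhds
  have l2 : Tendsto (fun t : ℝ => (∑ m ∈ Finset.range 5, c m * t ^ m) / t) (𝓝[>] 0)
      (𝓝 (volume.real (Cyl u 1 P))) := by
    refine tendsto_of_tendsto_of_tendsto_of_le_of_le' tendsto_const_nhds lim ?_ ?_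
    · filter_upwards [self_mem_nhdsWithin] with t ht
      rw [le_div_iff₀ ht, ← h t (le_of_lt ht), mul_comm]; exact lo t ht
    · filter_upwards [self_mem_nhdsWithin] with t ht
      rw [div_le_iff₀ ht, ← h t (le_of_lt ht), mul_comm]; exact up t ht
  have c0 : c 0 = 0 := by
    have a := l2.mul (tendsto_nhdsWithin_of_tendsto_nhds (s := Ioi (0 : ℝ)) tendsto_id)
    have b : Tendsto (fun t : ℝ => ∑ m ∈ Finset.range 5, c m * t ^ m) (𝓝[>] 0) (𝓝 (c 0)) :=
      (Continuous.tendsto' (by fun_prop) 0 _ (by simp [Finset.sum_range_succ])).mono_left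
        nhdsWithin_le_nhds
    rw [mul_zero] at a
    refine tendsto_nhds_unique_of_eventuallyEq b a ?_
    filter_upwards [self_mem_nhdsWithin] with t ht
    exact (div_mul_cancel₀ _ (ne_of_gt ht)).symm
  have b : Tendsto (fun t : ℝ => c 1 + c 2 * t + c 3 * t ^ 2 + c 4 * t ^ 3) (𝓝[>] 0) (𝓝 (c 1)) :=
    (Continuous.tendsto' (by fun_prop) 0 _ (by simp)).mono_left nhdsWithin_le_nhds
  refine tendsto_nhds_unique_of_eventuallyEq b l2 ?_
  filter_upwards [self_mem_nhdsWithin] with t ht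
  have : t ≠ 0 := ne_of_gt ht
  simp only [Finset.sum_range_succ, Finset.sum_range_zero, c0]
  field_simp
  ring

end Pool.Agent.H.MP_ad59b4_gt
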