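import Pool.Agent.H.MP_ad59b4_gt.B

set_option autoImplicit false
open Set Metric Filter Topology MeasureTheory
open scoped Pointwise RealInnerProductSpace

namespace Pool.Agent.H.MP_ad59b4_gt

lemma icc {I : Set ℝ} (hc : IsCompact I) (hv : Convex ℝ I) (hn : I.Nonempty) :
    ∃ a b, a ≤ b ∧ I = Icc a b := by
  have e := eq_Icc_of_connected_compact ⟨hn, hv.isPreconnected⟩ hc
  exact ⟨_, _, nonempty_Icc.1 (e ▸ hn), e⟩

lemma sec {A : Set (ℝ × ℝ)} (hc : IsCompact A) (hv : Convex ℝ A) (a : ℝ) :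
    IsCompact (Prod.mk a ⁻¹' A) ∧ Convex ℝ (Prod.mk a ⁻¹' A) := by
  refine ⟨(hc.image continuous_snd).of_isClosed_subset (hc.isClosed.preimage (by fun_prop))
    fun x hx => ⟨_, hx, rfl⟩, fun x hx y hy s t hs ht e => ?_⟩
  have := hv hx hy hs ht e
  simpa [← add_mul, e] using this

def Sh (α β : ℝ) (A B : Set (ℝ × ℝ)) : Set ((ℝ × ℝ) × ℝ) :=
  {w | ∃ x y, (w.1.1, x) ∈ A ∧ (w.1.2, y) ∈ B ∧ w.2 = β * x - α * y}

lemma Sh_compact (α β : ℝ) {A B : Set (ℝ × ℝ)} (hA : IsCompact A) (hB : IsCompact B) :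
    IsCompact (Sh α β A B) := by
  convert (hA.prod hB).image (f := fun z : (ℝ × ℝ) × ℝ × ℝ =>
    ((z.1.1, z.2.1), β * z.1.2 - α * z.2.2)) (by fun_prop)
  ext ⟨⟨a, b⟩, w⟩
  constructor
  · rintro ⟨x, y, h1, h2, rfl⟩
    exact ⟨((a, x), (b, y)), ⟨h1, h2⟩, rfl⟩
  · rintro ⟨⟨⟨a, x⟩, b, y⟩, ⟨h1, h2⟩, ⟨⟩⟩
    exact ⟨x, y, h1, h2, rfl⟩

lemma Sh_vol {α β : ℝ} (hα : 0 ≤ α) (hβ : 0 ≤ β) {A B : Set (ℝ × ℝ)} (hA : IsCompact A)
    (vA : Convex ℝ A) (hB : IsCompact B) (vB : Convex ℝ B) :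
    volume (Sh α β A B) = ENNReal.ofReal β * (volume A * volume (Prod.fst '' B)) +
      ENNReal.ofReal α * (volume (Prod.fst '' A) * volume B) := by
  have mA := (hA.image continuous_fst).measurableSet
  have mB := (hB.image continuous_fst).measurableSet
  have pt : ∀ z : ℝ × ℝ, volume (Prod.mk z ⁻¹' Sh α β A B) =
      ENNReal.ofReal β * (volume (Prod.mk z.1 ⁻¹' A) * (Prod.fst '' B).indicator 1 z.2) +
      ENNReal.ofReal α * ((Prod.fst '' A).indicator 1 z.1 * volume (Prod.mk z.2 ⁻¹' B)) := by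
    rintro ⟨a, b⟩
    by_cases h1 : a ∈ Prod.fst '' A; swap
    · have e : Prod.mk a ⁻¹' A = ∅ := eq_empty_of_forall_notMem fun x hx => h1 ⟨_, hx, rfl⟩
      have f : Prod.mk (a, b) ⁻¹' Sh α β A B = ∅ :=
        eq_empty_of_forall_notMem fun _ ⟨x, _, hx, _⟩ => h1 ⟨_, hx, rfl⟩
      simp only [e, f, indicator_of_notMem h1]; simp
    by_cases h2 : b ∈ Prod.fst '' B; swap
    · have e : Prod.mk b ⁻¹' B = ∅ := eq_empty_of_forall_notMem fun x hx => h2 ⟨_, hx, rfl⟩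
      have f : Prod.mk (a, b) ⁻¹' Sh α β A B = ∅ :=
        eq_empty_of_forall_notMem fun _ ⟨_, x, _, hx, _⟩ => h2 ⟨_, hx, rfl⟩
      simp only [e, f, indicator_of_notMem h2]; simp
    obtain ⟨p, q, pq, e1⟩ := icc (sec hA vA a).1 (sec hA vA a).2 (by
      obtain ⟨z, hz, rfl⟩ := h1; exact ⟨z.2, hz⟩)
    obtain ⟨r, s, rs, e2⟩ := icc (sec hB vB b).1 (sec hB vB b).2 (by
      obtain ⟨z, hz, rfl⟩ := h2; exact ⟨z.2, hz⟩)
    have f : Prod.mk (a, b) ⁻¹' Sh α β A B = Icc (β * p - α * s) (β * q - α * r) := by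
      ext w
      constructor
      · rintro ⟨x, y, hx, hy, e⟩
        have hx : x ∈ Icc p q := e1 ▸ hx
        have hy : y ∈ Icc r s := e2 ▸ hy
        have e : w = β * x - α * y := e
        constructor <;> nlinarith [hx.1, hx.2, hy.1, hy.2]
      · intro hw
        obtain ⟨t, ht, e⟩ := intermediate_value_Icc (zero_le_one' ℝ)
          (f := fun t => β * (p + t * (q - p)) - α * (s - t * (s - r))) (by fun_prop)
          (show w ∈ _ by simpa using hw)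
        have m1 : p + t * (q - p) ∈ Prod.mk a ⁻¹' A := by
          rw [e1]; constructor <;> nlinarith [ht.1, ht.2]
        have m2 : s - t * (s - r) ∈ Prod.mk b ⁻¹' B := by
          rw [e2]; constructor <;> nlinarith [ht.1, ht.2]
        exact ⟨_, _, m1, m2, e.symm⟩
    simp only [f, e1, e2, indicator_of_mem h1, indicator_of_mem h2, Real.volume_Icc, Pi.one_apply,
      mul_one, one_mul]
    rw [← ENNReal.ofReal_mul hα, ← ENNReal.ofReal_mul hβ, ← ENNReal.ofReal_add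
      (mul_nonneg hβ (sub_nonneg.2 pq)) (mul_nonneg hα (sub_nonneg.2 rs))]
    congr 1; ring
  have s1 := measurable_measure_prodMk_left (ν := volume) hA.measurableSet
  have s2 := measurable_measure_prodMk_left (ν := volume) hB.measurableSet
  have i1 : Measurable ((Prod.fst '' A).indicator (1 : ℝ → ENNReal)) := measurable_one.indicator mA
  have i2 : Measurable ((Prod.fst '' B).indicator (1 : ℝ → ENNReal)) := measurable_one.indicator mB
  rw [Measure.volume_eq_prod, Measure.prod_apply (Sh_compact α β hA hB).measurableSet]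
  simp only [pt]
  have j1 : Measurable fun z : ℝ × ℝ => volume (Prod.mk z.1 ⁻¹' A) *
    (Prod.fst '' B).indicator 1 z.2 := (s1.comp measurable_fst).mul (i2.comp measurable_snd)
  have j2 : Measurable fun z : ℝ × ℝ => (Prod.fst '' A).indicator 1 z.1 *
    volume (Prod.mk z.2 ⁻¹' B) := (i1.comp measurable_fst).mul (s2.comp measurable_snd)
  rw [lintegral_add_left (j1.const_mul _), lintegral_const_mul _ j1,
    lintegral_const_mul _ j2, Measure.volume_eq_prod,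
    lintegral_prod_mul s1.aemeasurable i2.aemeasurable,
    lintegral_prod_mul i1.aemeasurable s2.aemeasurable, lintegral_indicator_one mA,
    lintegral_indicator_one mB, ← Measure.prod_apply hA.measurableSet,
    ← Measure.prod_apply hB.measurableSet]

lemma wid {A : Set (ℝ × ℝ)} (hA : IsCompact A) (vA : Convex ℝ A) (hn : A.Nonempty) :
    volume (Prod.fst '' (A + -A)) = 2 * volume (Prod.fst '' A) := by
  obtain ⟨p, q, pq, e⟩ := icc (hA.image continuous_fst)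
    (vA.linear_image (LinearMap.fst ℝ ℝ ℝ)) (hn.image _)
  have : Prod.fst '' (A + -A) = Prod.fst '' A + -(Prod.fst '' A) := by
    exact (image_add (AddMonoidHom.fst ℝ ℝ)).trans
      (congrArg (Prod.fst '' A + ·) (image_neg (AddMonoidHom.fst ℝ ℝ) A))
  rw [this, e, neg_Icc, Icc_add_Icc pq (neg_le_neg pq), Real.volume_Icc, Real.volume_Icc,
    ← ENNReal.ofReal_ofNat, ← ENNReal.ofReal_mul (by norm_num)]
  congr 1; ring

lemma rot (v : ℝ × ℝ) : ∃ (g : (ℝ × ℝ) →ₗ[ℝ] ℝ × ℝ) (α : ℝ), Function.Injective g ∧ 0 ≤ α ∧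
    g v = (0, α) := by
  rcases eq_or_ne v 0 with rfl | h
  · exact ⟨LinearMap.id, 0, fun _ _ h => h, le_rfl, rfl⟩
  have p : 0 < v.1 ^ 2 + v.2 ^ 2 := by
    by_contra k
    exact h (Prod.ext (by simp; nlinarith [sq_nonneg v.1, sq_nonneg v.2])
      (by simp; nlinarith [sq_nonneg v.1, sq_nonneg v.2]))
  refine ⟨(v.1 • LinearMap.snd ℝ ℝ ℝ - v.2 • LinearMap.fst ℝ ℝ ℝ).prod
    (v.1 • LinearMap.fst ℝ ℝ ℝ + v.2 • LinearMap.snd ℝ ℝ ℝ), v.1 ^ 2 + v.2 ^ 2,
    (injective_iff_map_eq_zero _).2 fun z hz => ?_, p.le, by simp; constructor <;> ring⟩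
  simp at hz
  refine Prod.ext (mul_left_cancel₀ p.ne' ?_) (mul_left_cancel₀ p.ne' ?_)
  · simp only [Prod.fst_zero]; linear_combination v.1 * hz.2 - v.2 * hz.1
  · simp only [Prod.snd_zero]; linear_combination v.2 * hz.2 + v.1 * hz.1

noncomputable def f1 : E →ₗ[ℝ] ℝ × ℝ :=
  (EuclideanSpace.projₗ (0 : Fin 4)).prod (EuclideanSpace.projₗ (1 : Fin 4))
noncomputable def f2 : E →ₗ[ℝ] ℝ × ℝ :=
  (EuclideanSpace.projₗ (2 : Fin 4)).prod (EuclideanSpace.projₗ (3 : Fin 4))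

lemma f_ext {z w : E} (h1 : f1 z = f1 w) (h2 : f2 z = f2 w) : z = w := by
  simp [f1, f2] at h1 h2
  ext i; fin_cases i <;> simp [h1.1, h1.2, h2.1, h2.2]

lemma f_surj (a b : ℝ × ℝ) : ∃ z, f1 z = a ∧ f2 z = b :=
  ⟨!₂[a.1, a.2, b.1, b.2], by simp [f1], by simp [f2]⟩

def KK (A : Set (ℝ × ℝ)) : Set E := {z | f1 z ∈ A ∧ f2 z ∈ A}

def Pr (u : E) (K : Set E) : Set E := {y | ⟪u, y⟫ = 0 ∧ ∃ x ∈ K, ∃ s : ℝ, x - y = s • u}

lemma cyl {u : E} (hu : ‖u‖ = 1) : ∃ (g₁ g₂ : (ℝ × ℝ) →ₗ[ℝ] ℝ × ℝ) (α β : ℝ) (κ : ENNReal),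
    0 ≤ α ∧ 0 ≤ β ∧ ∀ A, IsCompact A →
      volume (Cyl u 1 (Pr u (KK A))) = κ * volume (Sh α β (g₁ '' A) (g₂ '' A)) := by
  obtain ⟨g₁, α, i1, α0, e1⟩ := rot (f1 u)
  obtain ⟨g₂, β, i2, β0, e2⟩ := rot (f2 u)
  have uu : ⟪u, u⟫ = 1 := by rw [real_inner_self_eq_norm_sq, hu]; norm_num
  have p : α ^ 2 + β ^ 2 ≠ 0 := fun k => by
    obtain rfl : α = 0 := by nlinarith
    obtain rfl : β = 0 := by nlinarith
    rw [f_ext (z := u) (w := 0) (i1 (by rw [e1]; simp)) (i2 (by rw [e2]; simp))] at hu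
    simp at hu
  let Ψ : E →ₗ[ℝ] (ℝ × ℝ) × ℝ :=
    ((LinearMap.fst ℝ ℝ ℝ ∘ₗ g₁ ∘ₗ f1).prod (LinearMap.fst ℝ ℝ ℝ ∘ₗ g₂ ∘ₗ f2)).prod
      (β • LinearMap.snd ℝ ℝ ℝ ∘ₗ g₁ ∘ₗ f1 - α • LinearMap.snd ℝ ℝ ℝ ∘ₗ g₂ ∘ₗ f2)
  have Ψa : ∀ z, Ψ z = (((g₁ (f1 z)).1, (g₂ (f2 z)).1),
    β * (g₁ (f1 z)).2 - α * (g₂ (f2 z)).2) := fun z => rfl
  have Ψu : Ψ u = 0 := by rw [Ψa, e1, e2]; simp [mul_comm]
  have ker : ∀ z, Ψ z = 0 → ∃ s : ℝ, z = s • u := by
    intro z hz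
    simp only [Ψa, Prod.mk_eq_zero] at hz
    refine ⟨(α * (g₁ (f1 z)).2 + β * (g₂ (f2 z)).2) / (α ^ 2 + β ^ 2), f_ext (i1 ?_) (i2 ?_)⟩
    · rw [map_smul, map_smul, e1]
      refine Prod.ext (by simpa using hz.1.1) ?_
      simp only [Prod.smul_mk, smul_eq_mul]; field_simp; linear_combination β * hz.2
    · rw [map_smul, map_smul, e2]
      refine Prod.ext (by simpa using hz.1.2) ?_
      simp only [Prod.smul_mk, smul_eq_mul]; field_simp; linear_combination -α * hz.2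
  let Φ := ((Ψ.prod (innerₗ E u)).linearEquivOfInjective ((injective_iff_map_eq_zero _).2
    fun z hz => by
      obtain ⟨s, rfl⟩ := ker z (congrArg Prod.fst hz)
      have : ⟪u, s • u⟫ = 0 := congrArg Prod.snd hz
      rw [real_inner_smul_right, uu, mul_one] at this
      simp [this]) (by simp)).toContinuousLinearEquiv
  have : (volume : Measure ((ℝ × ℝ) × ℝ)).IsAddHaarMeasure :=
    Measure.prod.instIsAddHaarMeasure _ _
  have : (volume : Measure (((ℝ × ℝ) × ℝ) × ℝ)).IsAddHaarMeasure :=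
    Measure.prod.instIsAddHaarMeasure _ _
  obtain ⟨κ, hm⟩ : ∃ κ : NNReal, Measure.map Φ volume = κ • volume :=
    ⟨_, Measure.isAddLeftInvariant_eq_smul (Measure.map Φ volume) volume⟩
  refine ⟨g₁, g₂, α, β, κ * 2, α0, β0, fun A hA => ?_⟩
  have e : Cyl u 1 (Pr u (KK A)) = Φ ⁻¹' (Sh α β (g₁ '' A) (g₂ '' A) ×ˢ Icc (-1) 1) := by
    ext z
    show _ ↔ Ψ z ∈ _ ∧ ⟪u, z⟫ ∈ _
    constructor
    · rintro ⟨h1, -, x, hx, s, e⟩
      have : Ψ z = Ψ x := by
        rw [show z = x + (⟪u, z⟫ - s) • u by rw [sub_smul, ← e]; abel, map_add, map_smul, Ψu]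
        simp
      rw [this]
      exact ⟨⟨_, _, ⟨_, hx.1, rfl⟩, ⟨_, hx.2, rfl⟩, rfl⟩, abs_le.1 h1⟩
    · rintro ⟨⟨x, y, ⟨a, ha, k1⟩, ⟨b, hb, k2⟩, k3⟩, h1⟩
      obtain ⟨w, rfl, rfl⟩ := f_surj a b
      obtain ⟨s, e⟩ := ker (w - z) (by
        rw [map_sub, sub_eq_zero, Ψa w, k1, k2, ← k3])
      refine ⟨abs_le.2 h1, by simp [inner_sub_right, real_inner_smul_right, hu], w, ⟨ha, hb⟩,
        s + ⟪u, z⟫, by rw [add_smul, ← e]; abel⟩
  have cg : ∀ g : (ℝ × ℝ) →ₗ[ℝ] ℝ × ℝ, IsCompact (g '' A) := fun g =>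
    hA.image g.continuous_of_finiteDimensional
  rw [e, ← Measure.map_apply Φ.continuous.measurable
    ((Sh_compact α β (cg _) (cg _)).measurableSet.prod measurableSet_Icc), hm, Measure.smul_apply, Measure.volume_eq_prod, Measure.prod_prod, Real.volume_Icc,
    ENNReal.smul_def, smul_eq_mul]
  norm_num
  ring

lemma ratio {u : E} (hu : ‖u‖ = 1) {A : Set (ℝ × ℝ)} (hA : IsCompact A) (vA : Convex ℝ A)
    (hn : A.Nonempty) : 2 * volume (A + -A) * volume (Cyl u 1 (Pr u (KK A))) =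
      volume A * volume (Cyl u 1 (Pr u (KK (A + -A)))) := by
  obtain ⟨g₁, g₂, α, β, κ, α0, β0, h⟩ := cyl hu
  have cg : ∀ g : (ℝ × ℝ) →ₗ[ℝ] ℝ × ℝ, IsCompact (g '' A) := fun g =>
    hA.image g.continuous_of_finiteDimensional
  have e : ∀ g : (ℝ × ℝ) →ₗ[ℝ] ℝ × ℝ, g '' (A + -A) = g '' A + -(g '' A) := fun g => by
    rw [image_add, image_neg]
  have v : ∀ g : (ℝ × ℝ) →ₗ[ℝ] ℝ × ℝ, volume (g '' A + -(g '' A)) =
      ENNReal.ofReal |LinearMap.det g| * volume (A + -A) := fun g => by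
    rw [← e, Measure.addHaar_image_linearMap]
  rw [h A hA, h _ (hA.add hA.neg), e, e,
    Sh_vol α0 β0 (cg _) (vA.linear_image _) (cg _) (vA.linear_image _),
    Sh_vol α0 β0 ((cg _).add (cg _).neg) ((vA.linear_image _).add (vA.linear_image _).neg)
      ((cg _).add (cg _).neg) ((vA.linear_image _).add (vA.linear_image _).neg),
    wid (cg _) (vA.linear_image _) (hn.image _), wid (cg _) (vA.linear_image _) (hn.image _),
    v, v, Measure.addHaar_image_linearMap, Measure.addHaar_image_linearMap]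
  ring

def T : Set (ℝ × ℝ) := {z | 0 ≤ z.1 ∧ 0 ≤ z.2 ∧ z.1 + z.2 ≤ 1}

lemma T_convex : Convex ℝ T := fun x hx y hy a b ha hb e =>
  ⟨by simpa using add_nonneg (mul_nonneg ha hx.1) (mul_nonneg hb hy.1),
   by simpa using add_nonneg (mul_nonneg ha hx.2.1) (mul_nonneg hb hy.2.1), by
    have := mul_le_mul_of_nonneg_left hx.2.2 ha
    have := mul_le_mul_of_nonneg_left hy.2.2 hb
    simp only [Prod.fst_add, Prod.snd_add, Prod.smul_fst, Prod.smul_snd, smul_eq_mul]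
    linarith⟩

lemma T_compact : IsCompact T :=
  (isCompact_Icc (a := (0, 0)) (b := (1, 1))).of_isClosed_subset
    ((isClosed_le continuous_const continuous_fst).inter
      ((isClosed_le continuous_const continuous_snd).inter
        (isClosed_le (continuous_fst.add continuous_snd) continuous_const)))
    fun z hz => ⟨Prod.le_def.2 ⟨hz.1, hz.2.1⟩, Prod.le_def.2
      ⟨by linarith [hz.2.1, hz.2.2], by linarith [hz.1, hz.2.2]⟩⟩

lemma T0 : (0 : ℝ × ℝ) ∈ T := by simp [T]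

lemma T_int : (interior T).Nonempty :=
  ⟨(1 / 4, 1 / 4), interior_maximal (t := Ioo 0 (1 / 2) ×ˢ Ioo 0 (1 / 2))
    (fun z hz => show z ∈ T from ⟨hz.1.1.le, hz.2.1.le, by linarith [hz.1.2, hz.2.2]⟩)
    (isOpen_Ioo.prod isOpen_Ioo) (by norm_num)⟩

lemma T_sub : T ⊆ T + -T := fun z hz => ⟨z, hz, 0, by simpa using T0, by simp⟩

lemma KK_convex {A : Set (ℝ × ℝ)} (h : Convex ℝ A) : Convex ℝ (KK A) :=
  (h.linear_preimage f1).inter (h.linear_preimage f2)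

lemma KK_compact {A : Set (ℝ × ℝ)} (h : IsCompact A) : IsCompact (KK A) := by
  convert (h.prod h).image (f := fun z : (ℝ × ℝ) × ℝ × ℝ => (!₂[z.1.1, z.1.2, z.2.1, z.2.2] : E))
    (by fun_prop)
  ext z
  constructor
  · exact fun hz => ⟨(f1 z, f2 z), hz, f_ext (by simp [f1]) (by simp [f2])⟩
  · rintro ⟨w, hw, rfl⟩
    exact ⟨by simpa [f1] using hw.1, by simpa [f2] using hw.2⟩

lemma KK_rank {A : Set (ℝ × ℝ)} (h : (interior A).Nonempty) :
    3 + 1 ≤ Module.finrank ℝ (vectorSpan ℝ (KK A)) := by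
  obtain ⟨a, ha⟩ := h
  obtain ⟨z, h1, h2⟩ := f_surj a a
  have : (interior (KK A)).Nonempty := ⟨z, interior_maximal (t := KK (interior A))
    (fun z hz => show z ∈ KK A from ⟨interior_subset hz.1, interior_subset hz.2⟩)
    ((isOpen_interior.preimage f1.continuous_of_finiteDimensional).inter
      (isOpen_interior.preimage f2.continuous_of_finiteDimensional)) ⟨h1 ▸ ha, h2 ▸ ha⟩⟩
  rw [← direction_affineSpan, affineSpan_eq_top_of_nonempty_interior
    (this.mono (interior_mono (subset_convexHull ℝ _))), AffineSubspace.direction_top]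
  simp

lemma KK_sub (A : Set (ℝ × ℝ)) : KK (A + -A) = KK A + -KK A := by
  ext z
  constructor
  · rintro ⟨⟨a, ha, b, hb, e1⟩, c, hc, d, hd, e2⟩
    obtain ⟨w, rfl, rfl⟩ := f_surj a c
    refine ⟨w, ⟨ha, hc⟩, z - w, ⟨?_, ?_⟩, by simp⟩
    · rw [map_neg, map_sub, ← e1]; simpa using hb
    · rw [map_neg, map_sub, ← e2]; simpa using hd
  · rintro ⟨x, hx, y, hy, rfl⟩
    exact ⟨⟨_, hx.1, f1 y, by simpa using hy.1, by simp⟩, _, hx.2, f2 y, by simpa using hy.2,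
      by simp⟩

lemma Pr_eq {u : E} (hu : ‖u‖ = 1) (K : Set E) :
    Pr u K = (LinearMap.transvection (-innerₗ E u) u) '' K := by
  ext y
  simp only [LinearMap.transvection.apply, LinearMap.neg_apply, innerₗ_apply_apply, mem_image]
  constructor
  · rintro ⟨h, x, hx, s, e⟩
    refine ⟨x, hx, ?_⟩
    obtain rfl : x = y + s • u := by rw [← e]; abel
    simp [inner_add_right, h, real_inner_smul_right, hu]
  · rintro ⟨x, hx, rfl⟩
    exact ⟨by simp [inner_add_right, real_inner_smul_right, hu], x, hx, ⟪u, x⟫, by simp⟩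

lemma main (S : Submodule ℝ E) (hS : Module.finrank ℝ S = 3) : ∃ c₁ c₂ : ℕ → ℝ,
    (∀ t : ℝ, 0 ≤ t → volume ({y : E | y ∈ S ∧ ∃ x ∈ KK T, x - y ∈ Sᗮ} + closedBall (0 : E) t)
      = ENNReal.ofReal (∑ m ∈ Finset.range (4 + 1), c₁ m * t ^ m)) ∧
    (∀ t : ℝ, 0 ≤ t →
      volume ({y : E | y ∈ S ∧ ∃ x ∈ KK (T + -T), x - y ∈ Sᗮ} + closedBall (0 : E) t)
      = ENNReal.ofReal (∑ m ∈ Finset.range (4 + 1), c₂ m * t ^ m)) ∧
    c₁ (4 - 1) = 1 / 2 * c₂ (4 - 1) ∧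
    c₁ (4 - 3) = volume.real T / (2 * volume.real (T + -T)) * c₂ (4 - 3) := by
  have r : Module.finrank ℝ Sᗮ = 1 := by
    have := S.finrank_add_finrank_orthogonal
    simp [hS] at this
    omega
  obtain ⟨v, v0, hv⟩ := finrank_eq_one_iff'.1 r
  have n0 : 0 < ‖(v : E)‖ := by simpa using v0
  obtain ⟨u, hu, m1, m2⟩ : ∃ u : E, ‖u‖ = 1 ∧ u ∈ Sᗮ ∧ ∀ w ∈ Sᗮ, ∃ s : ℝ, w = s • u := by
    refine ⟨‖(v : E)‖⁻¹ • v, by rw [norm_smul, norm_inv, norm_norm, inv_mul_cancel₀ n0.ne'],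
      Sᗮ.smul_mem _ v.2, fun w hw => ?_⟩
    obtain ⟨c, hc⟩ := hv ⟨w, hw⟩
    exact ⟨c * ‖(v : E)‖, by
      rw [mul_smul, smul_inv_smul₀ n0.ne']; exact (congrArg Subtype.val hc).symm⟩
  have e : ∀ K : Set E, {y : E | y ∈ S ∧ ∃ x ∈ K, x - y ∈ Sᗮ} = Pr u K := by
    intro K
    ext y
    refine and_congr ⟨fun h => (S.mem_orthogonal' u).1 m1 y h, fun h => ?_⟩
      (exists_congr fun x => and_congr_right fun _ => ⟨m2 _, ?_⟩)
    · rw [← S.orthogonal_orthogonal, Submodule.mem_orthogonal]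
      intro w hw
      obtain ⟨s, rfl⟩ := m2 w hw
      rw [real_inner_smul_left, h, mul_zero]
    · rintro ⟨s, e⟩
      rw [e]; exact Sᗮ.smul_mem _ m1
  have cP : ∀ {K : Set E}, IsCompact K → IsCompact (Pr u K) := fun h => by
    rw [Pr_eq hu]; exact h.image (LinearMap.continuous_of_finiteDimensional _)
  have c1' := cP (KK_compact T_compact)
  have c2' := cP (KK_compact (T_compact.add T_compact.neg))
  have n1 : (Pr u (KK T)).Nonempty := by
    rw [Pr_eq hu]; exact Nonempty.image _ ⟨0, by simpa using T0, by simpa using T0⟩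
  have e2 : Pr u (KK (T + -T)) = Pr u (KK T) + -Pr u (KK T) := by
    rw [Pr_eq hu, Pr_eq hu, KK_sub, image_add, image_neg]
  have v1 : Convex ℝ (Pr u (KK T)) := by
    rw [Pr_eq hu]; exact (KK_convex T_convex).linear_image _
  obtain ⟨c, hc⟩ := steiner c1' v1 n1
  obtain ⟨d, hd⟩ := steiner c2' (e2 ▸ v1.add v1.neg) (e2 ▸ n1.add n1.neg)
  refine ⟨c, d, fun t ht => ?_, fun t ht => ?_, c3_sub c1' n1 hc (e2 ▸ hd), ?_⟩
  · rw [e, ← hc t ht, ofReal_measureReal (c1'.add (isCompact_closedBall _ _)).measure_lt_top.ne]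
  · rw [e, ← hd t ht, ofReal_measureReal (c2'.add (isCompact_closedBall _ _)).measure_lt_top.ne]
  · have p : 0 < volume.real (T + -T) := ENNReal.toReal_pos
      (Measure.measure_pos_of_nonempty_interior _ (T_int.mono (interior_mono T_sub))).ne'
      (T_compact.add T_compact.neg).measure_lt_top.ne
    have := congrArg ENNReal.toReal (ratio hu T_compact T_convex ⟨0, T0⟩)
    simp only [ENNReal.toReal_mul, ENNReal.toReal_ofNat, ← measureReal_def] at this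
    rw [c1 c1' hu (fun _ h => h.1) hc, c1 c2' hu (fun _ h => h.1) hd]
    field_simp
    linarith

lemma symm {x : E} (hx : x ∈ KK (T + -T)) : -x ∈ KK (T + -T) := by
  rw [KK_sub] at hx ⊢
  rw [← Set.mem_neg, neg_add, neg_neg, add_comm]
  exact hx

lemma nothom (r : ℝ) (v : E) : KK T ≠ (fun x => r • x + v) '' KK (T + -T) := by
  intro h
  have k : ∀ a ∈ T, 2 • f1 v - a ∈ T := by
    intro a ha
    obtain ⟨z, rfl, h2⟩ := f_surj a 0
    obtain ⟨y, hy, rfl⟩ : z ∈ (fun x => r • x + v) '' KK (T + -T) := h ▸ ⟨ha, h2 ▸ T0⟩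
    have : r • (-y) + v ∈ KK T := h ▸ ⟨-y, symm hy, rfl⟩
    convert this.1 using 1
    simp only [map_add, map_smul, map_neg]; module
  have a := (k (1, 0) (by simp [T])).1
  have b := (k (0, 1) (by simp [T])).2.1
  have c := (k 0 T0).2.2
  simp at a b c
  linarith

end Pool.Agent.H.MP_ad59b4_gt
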